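import Pool.Agent.KS6_93.Lin.PB
import Pool.Graph.R_seed8.Y173.LG.Main

/-!
# Linear growth of a 1-form along light-like geodesics: exactly from dimension three on

A closed manifold with a complete metric of signature `(p, q)`, `p, q ≥ 1`, and a 1-form which is
affine along all light-like geodesics and not constant along some of them exists if and only if
`p + q ≥ 3`.  The examples for `p + q ≥ 3` are in the library (flat nilmanifolds).  New: there is no
example on a surface.

Idea.  Let `g` be a light-like complete metric on a closed surface and let `η (γ')` be affine along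
all light-like geodesics `γ`.  A null vector `v` with slope `1` and `η (v) > 0` is determined by its
null line.  So locally these vectors form a vector field `V`, which is geodesic and null, and for this
reason has divergence `0`: locally there is a function `H` such that `(H, η (V))` are coordinates in
which `V = (0, 1)` and the area form of `g` is `± dH ∧ d(η (V))`.  The geodesics with the initial
velocity `V` at the points of a short arc `η (V) = u` give an injective (on each null line field) map
of a half-infinite strip into the surface which preserves the area.  But the area of a closed surface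
is finite.
-/

set_option autoImplicit false
set_option maxSynthPendingDepth 3
set_option linter.overlappingInstances false

open scoped Manifold ContDiff Topology
open Pool.Agent.Helper831 Pool.Agent.Y173.LG

namespace Pool.Agent.Results.MP_64c48d_gt.ExactDimensions

/-- Every light-like vector is the initial velocity of a geodesic which is defined on `ℝ`. -/
def IsLightlikeComplete {E : Type*} [NormedAddCommGroup E] [NormedSpace ℝ E] {M : Type*}
    [TopologicalSpace M] [ChartedSpace E M] (g : SemiRiemannianMetric E M) : Prop :=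
  ∀ (x : M) (v : TangentSpace 𝓘(ℝ, E) x), g.form x v v = 0 → ∃ γ : ℝ → M, g.IsGeodesic γ ∧
    (⟨γ 0, velocity E γ 0⟩ : TangentBundle 𝓘(ℝ, E) M) = ⟨x, v⟩

/-- `η (γ' (t)) = C₁ t + C₂` along every light-like geodesic `γ : ℝ → M`, with constants `C₁`, `C₂`
which may depend on `γ`. -/
def IsAffineAlong {E : Type*} [NormedAddCommGroup E] [NormedSpace ℝ E] {M : Type*}
    [TopologicalSpace M] [ChartedSpace E M] (g : SemiRiemannianMetric E M) (η : OneForm E M) :
    Prop :=
  ∀ γ : ℝ → M, g.IsLightlikeGeodesic γ → ∃ C₁ C₂ : ℝ, ∀ t : ℝ,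
    η.form (γ t) (velocity E γ t) = C₁ * t + C₂

/-- (1) Let `p, q ≥ 1`.  There are a closed connected manifold, a complete metric of signature
`(p, q)` and a 1-form `η` such that `η (γ')` is affine along all light-like geodesics `γ` and has a
nonzero slope along at least one of them if and only if `p + q ≥ 3`.
(2) On a closed surface with an indefinite metric which is light-like complete, every 1-form `η`
such that `η (γ')` is affine along all light-like geodesics `γ` is constant along all of them. -/
theorem result :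
    (∀ p q : ℕ, 1 ≤ p → 1 ≤ q →
      ((∃ (E : Type) (_ : NormedAddCommGroup E) (_ : NormedSpace ℝ E)
        (_ : FiniteDimensional ℝ E) (M : Type) (_ : TopologicalSpace M) (_ : ChartedSpace E M)
        (_ : IsManifold 𝓘(ℝ, E) ∞ M) (_ : CompactSpace M) (_ : T2Space M) (_ : ConnectedSpace M)
        (g : SemiRiemannianMetric E M) (η : OneForm E M),
        HasSignature g p q ∧ g.IsComplete ∧ IsAffineAlong g η ∧
        ∃ γ : ℝ → M, g.IsLightlikeGeodesic γ ∧ ∃ C₁ C₂ : ℝ, C₁ ≠ 0 ∧ ∀ t : ℝ,
          η.form (γ t) (velocity E γ t) = C₁ * t + C₂) ↔ 3 ≤ p + q)) ∧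
    (∀ (E : Type) [NormedAddCommGroup E] [NormedSpace ℝ E] [FiniteDimensional ℝ E]
      (M : Type) [TopologicalSpace M] [ChartedSpace E M] [IsManifold 𝓘(ℝ, E) ∞ M]
      [CompactSpace M] [T2Space M] (g : SemiRiemannianMetric E M) (η : OneForm E M),
      Module.finrank ℝ E = 2 → g.IsIndefinite → IsLightlikeComplete g → IsAffineAlong g η →
      ∀ γ : ℝ → M, g.IsLightlikeGeodesic γ → ∀ t : ℝ,
        η.form (γ t) (velocity E γ t) = η.form (γ 0) (velocity E γ 0)) := by
  refine ⟨fun p q hp hq => ⟨?_, ?_⟩, ?_⟩
  · rintro ⟨E, _, _, _, M, _, _, _, _, _, _, g, η, hsig, hc, haff, γ, hγ, C₁, C₂, h0, hC⟩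
    by_contra hlt
    have hpq : p + q = 2 := by omega
    have hi : g.IsIndefinite := by
      intro x
      obtain ⟨v, w, h1, h2, -⟩ := hsig.2 x
      refine ⟨⟨v ⟨0, by omega⟩, ?_⟩, ⟨w ⟨0, by omega⟩, ?_⟩⟩
      · rw [h1, if_pos rfl]; norm_num
      · rw [h2, if_pos rfl]; norm_num
    exact h0 (Pool.Agent.KS6_93.Lin.surface (hsig.1.trans hpq) hi (fun x v _ => hc x v) haff
      hγ hC)
  · intro hpq
    have key : ∀ (a b : ℕ) {s : ℝ} (hs : s ≠ 0) (p q : ℕ), HasSignature (met a b hs) p q →
        ∃ (E : Type) (_ : NormedAddCommGroup E) (_ : NormedSpace ℝ E)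
        (_ : FiniteDimensional ℝ E) (M : Type) (_ : TopologicalSpace M) (_ : ChartedSpace E M)
        (_ : IsManifold 𝓘(ℝ, E) ∞ M) (_ : CompactSpace M) (_ : T2Space M) (_ : ConnectedSpace M)
        (g : SemiRiemannianMetric E M) (η : OneForm E M),
        HasSignature g p q ∧ g.IsComplete ∧ IsAffineAlong g η ∧
        ∃ γ : ℝ → M, g.IsLightlikeGeodesic γ ∧ ∃ C₁ C₂ : ℝ, C₁ ≠ 0 ∧ ∀ t : ℝ,
          η.form (γ t) (velocity E γ t) = C₁ * t + C₂ := by
      intro a b s hs p q hsig
      obtain ⟨η, ζ, h1, h2, -, -, h5⟩ := main a b hs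
      refine ⟨EE a b, inferInstance, inferInstance, inferInstance, NTMfd a b, inferInstance,
        inferInstance, inferInstance, inferInstance, inferInstance, inferInstance, met a b hs, η,
        hsig, h1, fun γ hγ => ⟨_, _, fun t => (h2 γ hγ.1 t).2⟩, ?_⟩
      haveI : Nonempty (NTMfd a b) := inferInstance
      obtain ⟨γ, hγ, -, hz⟩ := h5 (Classical.arbitrary (NTMfd a b))
      exact ⟨γ, hγ, _, _, neg_ne_zero.2 (pow_ne_zero 2 hz), fun t => (h2 γ hγ.1 t).2⟩
    rcases Nat.lt_or_ge 1 p with h | h
    · obtain ⟨a, rfl⟩ := Nat.exists_eq_add_of_le (show 2 ≤ p from h)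
      obtain ⟨b, rfl⟩ := Nat.exists_eq_add_of_le hq
      exact key a b one_ne_zero _ _ sig_pos
    · have hp1 : p = 1 + 0 := by omega
      obtain ⟨a, rfl⟩ := Nat.exists_eq_add_of_le (show 2 ≤ q by omega)
      subst hp1
      exact key a 0 (neg_ne_zero.2 one_ne_zero) _ _ sig_neg
  · intro E _ _ _ M _ _ _ _ _ g η hE hi hc haff γ hγ t
    obtain ⟨C₁, C₂, h⟩ := haff γ hγ
    have h0 := Pool.Agent.KS6_93.Lin.surface hE hi hc haff hγ h
    rw [h t, h 0, h0]
    ring

end Pool.Agent.Results.MP_64c48d_gt.ExactDimensions
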